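import Pool.Agent.V5helper49.PTR.Stm
import Pool.Agent.V5helper49.LR.All2
import Pool.Agent.V5helper42.RS.FL
import Pool.Agent.V5helper42.RS.E

/-! Project PTR: the almost sure part. -/

set_option autoImplicit false

namespace Pool.Agent.V5helper49.PTR

open Finset MeasureTheory ProbabilityTheory Filter
open scoped ENNReal Topology
open Pool.Agent.W41 (V V_pos)
open Pool.Agent.V5helper42.RS (W model FL)

universe u

/-- copied from `V5helper69.EHS.DEN` -/
lemma exists_FL (ε : ℝ) (hε : 0 < ε) : ∃ K, FL ε K := by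
  obtain ⟨C0, M, hC0, hM, hF⟩ := Pool.Agent.V5helper42.RS.fundR
  obtain ⟨k, hk⟩ := exists_pow_lt_of_lt_one (show (0 : ℝ) < ε / 2 by positivity)
    (show (1 / 2 : ℝ) < 1 by norm_num)
  obtain ⟨n, hn⟩ : ∃ n : ℕ, n = max (max C0 (2 * M)) k := ⟨_, rfl⟩
  have h1 : C0 ≤ n := by rw [hn]; exact (le_max_left _ _).trans (le_max_left _ _)
  have h2 : 2 * M ≤ n := by rw [hn]; exact (le_max_right _ _).trans (le_max_left _ _)
  have h3 : k ≤ n := by rw [hn]; exact le_max_right _ _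
  obtain ⟨y0, hy2, hy0⟩ := hF n h1 h2
  refine ⟨4 * (C0 * n) + 5, y0, hy2, fun y hy X hX P hP ρ hρ =>
    (hy0 y hy X hX P hP ρ hρ).trans ?_⟩
  have hV : 0 ≤ V P := (V_pos fun p hp => (hP p hp).1).le
  refine mul_le_mul_of_nonneg_right ?_ (mul_nonneg (Nat.cast_nonneg X) hV)
  have hn0 : (0 : ℝ) < n := by
    have : 0 < n := by omega
    exact_mod_cast this
  have h4 : (M : ℝ) / n ≤ 1 / 2 := by
    rw [div_le_div_iff₀ hn0 (by norm_num)]
    have : 2 * (M : ℝ) ≤ n := by exact_mod_cast h2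
    linarith
  have h5 : ((M : ℝ) / n) ^ n ≤ (1 / 2) ^ n := pow_le_pow_left₀ (by positivity) h4 n
  have h6 : (1 / 2 : ℝ) ^ n ≤ (1 / 2) ^ k := pow_le_pow_of_le_one (by norm_num) (by norm_num) h3
  linarith

theorem ae_both : ∃ s : ℕ, 2 ≤ s ∧ ∀ {Ω : Type u} [MeasurableSpace Ω] (μ : Measure Ω) [IsProbabilityMeasure μ]
    (a : ℕ → Ω → ℕ), (∀ p, Measurable (a p)) → iIndepFun a μ →
    (∀ p : ℕ, p.Prime → ∀ r < p, μ {ω | a p ω = r} = (p : ℝ≥0∞)⁻¹) →
    ∀ᵐ ω ∂μ, Reg (model fun p => a p ω) s ∧ Uni (model fun p => a p ω) := by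
  obtain ⟨K, hK⟩ := exists_FL (1 / 8) (by norm_num)
  refine ⟨5 * K + 7, by omega, ?_⟩
  intro Ω _ μ _ a hm hi hu
  filter_upwards [Pool.Agent.V5helper42.RS.ae_regular μ a hm hi hu (1 / 8) (by norm_num) (by norm_num) K hK,
    Pool.Agent.V5helper49.LR.main_uni.{u} μ a hm hi hu] with ω h1 h2
  constructor
  · filter_upwards [h1, eventually_ge_atTop 3] with m hmm hm3 y hy1 hy2
    have h3 := hmm y hy1 hy2
    have hm3' : (3 : ℝ) ≤ m := by exact_mod_cast hm3
    have hlog : 0 < Real.log m := Real.log_pos (by linarith)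
    have h4 : (0 : ℝ) ≤ y / Real.log m := by positivity
    rw [abs_le] at h3
    constructor
    · have h5 : (y : ℝ) / (2 * Real.log m) = (y / Real.log m) / 2 := by field_simp
      rw [h5]
      have h6 := h3.1
      linarith
    · have h5 : 2 * (y : ℝ) / Real.log m = 2 * (y / Real.log m) := by ring
      rw [h5]
      have h6 := h3.2
      linarith
  · have h3 := h2 1 one_pos le_rfl
    filter_upwards [h3, eventually_ge_atTop (1 : ℝ)] with x hx hx1 H T hH hT hc hA
    have hlog : 0 ≤ Real.log x := Real.log_nonneg hx1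
    have e1 : Real.log x ^ (2 - 1 : ℝ) = Real.log x := by norm_num
    obtain ⟨n, hn1, hn2, hn3⟩ := hx H T (by rw [e1]; exact hH) hT hc hA
    refine ⟨n, hn1, hn2, ?_⟩
    intro t ht
    have ht' := hT ht
    rw [mem_range] at ht'
    exact (hn3 t (by omega)).2 ht

end Pool.Agent.V5helper49.PTR
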