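import Pool.Agent.V5helper49.PTR.Fin
import Pool.Agent.V5helper61.PTR.NEG
import Pool.Agent.V5helper29.PTR.ADM
import Pool.Agent.V5helper65.PTR.CT
import Pool.Agent.V5helper36.PTR.STEP
import Pool.Agent.V5helper1.PTR.REC

/-! Project PTR: the theorem. -/

set_option autoImplicit false

namespace Pool.Agent.V5helper49.PTR

open Finset MeasureTheory ProbabilityTheory Filter
open scoped ENNReal Topology
open Pool.Agent.V5helper42.RS (W model)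

universe u

theorem main : ∃ κ₁ κ₂ : ℝ, κ₁ < 1 ∧ 0 < κ₂ ∧
    ∀ {Ω : Type u} [MeasurableSpace Ω] (μ : Measure Ω) [IsProbabilityMeasure μ]
    (a : ℕ → Ω → ℕ), (∀ p, Measurable (a p)) → iIndepFun a μ →
    (∀ p : ℕ, p.Prime → ∀ r < p, μ {ω | a p ω = r} = (p : ℝ≥0∞)⁻¹) →
    ∀ᵐ ω ∂μ, (∀ A : Set ℕ, (∀ᶠ x : ℕ in atTop, (x : ℝ) ^ κ₁ ≤ cnt A x) → {n | Good (model fun p => a p ω) A n}.Finite) ∧
      ∃ A : Set ℕ, (∀ᶠ x : ℕ in atTop, (x : ℝ) ^ κ₂ ≤ cnt A x) ∧ {n | Good (model fun p => a p ω) A n}.Infinite :=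
  fin Pool.Agent.V5helper61.PTR.t_NEG
    (Pool.Agent.V5helper36.PTR.t_STEP Pool.Agent.V5helper29.PTR.t_ADM Pool.Agent.V5helper65.PTR.CT.t_CT)
    V5helper1.PTR.t_REC

end Pool.Agent.V5helper49.PTR
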