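import Pool.Agent.V5helper49.PTR.AE

/-! Project PTR: assembly. -/

set_option autoImplicit false

namespace Pool.Agent.V5helper49.PTR

open Finset MeasureTheory ProbabilityTheory Filter
open scoped ENNReal Topology
open Pool.Agent.V5helper42.RS (W model)

universe u

theorem fin (hNEG : S_NEG) (hSTEP : S_STEP) (hREC : S_REC) : ∃ κ₁ κ₂ : ℝ, κ₁ < 1 ∧ 0 < κ₂ ∧
    ∀ {Ω : Type u} [MeasurableSpace Ω] (μ : Measure Ω) [IsProbabilityMeasure μ]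
    (a : ℕ → Ω → ℕ), (∀ p, Measurable (a p)) → iIndepFun a μ →
    (∀ p : ℕ, p.Prime → ∀ r < p, μ {ω | a p ω = r} = (p : ℝ≥0∞)⁻¹) →
    ∀ᵐ ω ∂μ, (∀ A : Set ℕ, (∀ᶠ x : ℕ in atTop, (x : ℝ) ^ κ₁ ≤ cnt A x) → {n | Good (model fun p => a p ω) A n}.Finite) ∧
      ∃ A : Set ℕ, (∀ᶠ x : ℕ in atTop, (x : ℝ) ^ κ₂ ≤ cnt A x) ∧ {n | Good (model fun p => a p ω) A n}.Infinite := by
  obtain ⟨s, hs, h⟩ := ae_both.{u}
  obtain ⟨κ, hκ, hκ2, hst⟩ := hSTEP s hs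
  refine ⟨1 - 1 / (2 * (s : ℝ)), κ, ?_, hκ, ?_⟩
  · have hs' : (0 : ℝ) < s := by exact_mod_cast (by omega : 0 < s)
    have : (0 : ℝ) < 1 / (2 * (s : ℝ)) := by positivity
    linarith
  intro Ω _ μ _ a hm hi hu
  filter_upwards [h μ a hm hi hu] with ω hω
  refine ⟨fun A hA => hNEG s (by omega) _ hω.1 A hA, ?_⟩
  obtain ⟨A, hA1, hA2⟩ := hREC _ s κ hκ (hst _ hω.1 hω.2)
  exact ⟨A, hA2, hA1⟩

end Pool.Agent.V5helper49.PTR
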