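import Pool.Agent.V5helper42.RS.W

/-!
# Project PTR (MP_471786_nt): prime translates in the random sieve model

`n` is good for `A` if `n - k ∈ M` for all `k ∈ A`, `0 < k < n`. In the random sieve model almost surely: a set with `≥ x^κ` elements up to
every large `x` (`κ < 1` an absolute constant) has only finitely many good `n`; for another absolute `κ > 0` there is such a set with infinitely
many good `n`.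
-/

set_option autoImplicit false

namespace Pool.Agent.V5helper49.PTR

open Finset Filter
open Pool.Agent.V5helper42.RS (W model)

open Classical in
/-- number of the elements of `A` in `[1, x]` -/
noncomputable def cnt (A : Set ℕ) (x : ℕ) : ℕ := ((Icc 1 x).filter (fun k => k ∈ A)).card

/-- `n` is good for `A` (with respect to `M`) -/
def Good (M A : Set ℕ) (n : ℕ) : Prop := ∀ k ∈ A, 0 < k → k < n → n - k ∈ M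

/-- some class modulo `p` contains no element of `T`, for every prime `p` -/
def Adm (T : Finset ℕ) : Prop := ∀ p : ℕ, p.Prime → ∃ b < p, ∀ t ∈ T, t % p ≠ b

open Classical in
/-- intervals longer than `(log m)^s` contain the expected number of elements, up to a factor `2` -/
def Reg (M : Set ℕ) (s : ℕ) : Prop := ∀ᶠ m : ℕ in atTop, ∀ y : ℕ, (Real.log m) ^ s ≤ (y : ℝ) → y ≤ m →
  (y : ℝ) / (2 * Real.log m) ≤ (((Ioc m (m + y)).filter (fun n => n ∈ M)).card : ℝ) ∧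
  (((Ioc m (m + y)).filter (fun n => n ∈ M)).card : ℝ) ≤ 2 * y / Real.log m

/-- small admissible patterns occur everywhere -/
def Uni (M : Set ℕ) : Prop := ∀ᶠ x : ℝ in atTop, ∀ (H : ℕ) (T : Finset ℕ), (H : ℝ) ≤ Real.log x → T ⊆ range (H + 1) →
  (T.card : ℝ) ≤ Real.log x ^ (1 / 10 : ℝ) → Adm T → ∃ n : ℕ, x < n ∧ (n : ℝ) ≤ 4 * x ∧ ∀ t ∈ T, n + t ∈ M

/-- **PT-NEG** (80 lines, elementary). Proof. Let `n` be good and large, `L = log n`, `y = ⌈L^s⌉₊`, `m = n - y - 1` (so `n / 2 ≤ m`, `(log m)^s ≤ y ≤ m`). `k ↦ n - k` maps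
`{k ∈ A : 1 ≤ k ≤ y}` injectively into `{j ∈ M : m < j ≤ m + y}` (`m + y = n - 1`). So `y^(1 - 1/(2s)) ≤ cnt A y ≤ 2 y / log m`, i.e. `log m ≤ 2 y^(1/(2s)) ≤ 2 (2 L^s)^(1/(2s)) ≤ 4 √L`, but
`log m ≥ L - log 2`: false for large `n`. -/
def S_NEG : Prop := ∀ s : ℕ, 1 ≤ s → ∀ M : Set ℕ, Reg M s → ∀ A : Set ℕ,
  (∀ᶠ x : ℕ in atTop, (x : ℝ) ^ (1 - 1 / (2 * (s : ℝ))) ≤ cnt A x) → {n | Good M A n}.Finite

/-- **PT-ADM** (80 lines). Proof. `W_upper`: `W p ≤ C log p` for `p ≥ p₀`; let `β = min (1/12) (1/(4C))`. For a prime `p` with `W p ≤ log (N / 2)` (real): every `k ∈ F` has `N - k ≥ N / 2` (`k ≤ N^β ≤ N/2`), so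
`W p ≤ log (N - k)` and `¬ N - k ≡ a p [MOD p]`; the class `b ≡ N - a p` (e.g. `b = (N + p * a p - a p) % p`) is missed: `k ≡ b` gives `N - k ≡ a p`. If `W p > log (N / 2)` then `p ≥ p₀` (`W` is monotone, `N` is large:
`log (N/2) ≥ W p₀`), so `C log p ≥ log (N/2)`, `log p ≥ log (N/2)/C > β log N` (`N` large), `p > N^β ≥ #F`, and some class modulo `p` is missed (pigeonhole: the image of `F` under `% p` has fewer than `p` elements). -/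
def S_ADM : Prop := ∃ β : ℝ, 0 < β ∧ β ≤ 1 / 12 ∧ ∃ N₀ : ℕ, ∀ N : ℕ, N₀ ≤ N → ∀ (a : ℕ → ℕ) (F : Finset ℕ),
  (∀ k ∈ F, 1 ≤ k ∧ (k : ℝ) ≤ (N : ℝ) ^ β) → (∀ k ∈ F, N - k ∈ model a) → Adm F

open Classical in
/-- **PT-CT** (80 lines, elementary). Proof. `m = N' - x - 1`, `y = x - N` (`m + y = N' - N - 1`), so `k ↦ N' - k` maps `{k ∈ (N, x] : N' - k ∈ M}` bijectively onto `{j ∈ M : m < j ≤ m + y}`. `y ≥ x / 2 ≥ (log N')^s ≥ (log m)^s` as `2 N ≤ x`, `x ≤ N'^(1/12) ≤ N'/4`, so `y ≤ m`. The count is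
`≥ y / (2 log m) ≥ x / (4 log N')`, and `4 (log N')^2 ≤ x` (`s ≥ 2`, `log N' ≥ 1`) gives `log N' ≤ √x / 2`, so the count is `≥ √x / 2`. -/
def S_CT : Prop := ∀ s : ℕ, 2 ≤ s → ∀ M : Set ℕ, Reg M s → ∃ N₀ : ℕ, ∀ N' : ℕ, N₀ ≤ N' → ∀ N x : ℕ, 4 * (Real.log N') ^ s + 2 * N ≤ (x : ℝ) →
  (x : ℝ) ≤ (N' : ℝ) ^ (1 / 12 : ℝ) → Real.sqrt x / 2 ≤ (((Ioc N x).filter (fun k => N' - k ∈ M)).card : ℝ)

/-- **PT-STEP** (150 lines, uses ADM, CT; helper49). Proof. `x = exp N`, `H = N`, `T = {N - k : k ∈ F}` in `Uni`: `n' ∈ (e^N, 4 e^N]` with `n' + (N - k) ∈ M`; `N' = n' + N`, `F' = F ∪ {k ∈ (N, N'^β] : N' - k ∈ M}`. -/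
def S_STEP : Prop := ∀ s : ℕ, 2 ≤ s → ∃ κ : ℝ, 0 < κ ∧ κ ≤ 1 / 2 ∧ ∀ a : ℕ → ℕ, Reg (model a) s → Uni (model a) → ∃ N₀ : ℕ, ∀ N : ℕ, N₀ ≤ N →
  ∀ F : Finset ℕ, F ⊆ Icc 1 N → (F.card : ℝ) ≤ (N : ℝ) ^ (1 / 10 : ℝ) → Adm F →
  ∃ (N' : ℕ) (F' : Finset ℕ), N < N' ∧ F' ⊆ Icc 1 N' ∧ (F'.card : ℝ) ≤ (N' : ℝ) ^ (1 / 10 : ℝ) ∧ Adm F' ∧ F ⊆ F' ∧
    (∀ k ∈ F', k ≤ N → k ∈ F) ∧ (∀ k ∈ F', N' - k ∈ model a) ∧ (N' : ℝ) ^ (κ * (s + 1)) ≤ F'.card ∧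
    ∀ x : ℕ, (N : ℝ) ^ (s + 1) ≤ x → x ≤ N' → (x : ℝ) ^ κ ≤ ((F'.filter (fun k => k ≤ x)).card : ℝ)

/-- **PT-REC** (120 lines, recursion). Proof. Start with `(N₀ + 1, ∅)` (`∅` is admissible) and iterate `hstep` (a subtype of states `(N, F)` with `N₀ ≤ N`, `1 ≤ N`, `F ⊆ Icc 1 N`, the bound of the card, `Adm F`): `N_i` strictly increasing, `F_i ⊆ F_{i+1}`,
`F_{i+1} ∩ [1, N_i] = F_i`, hence `F_j ∩ [1, N_i] ⊆ F_i` for all `j`. `A = ⋃ F_i`. `N_i` is good for `i ≥ 1`. For `x ≥ N_1` take `i ≥ 1` with `N_i ≤ x < N_{i+1}`: if `x ≥ N_i^(s+1)` the last property of the step gives `x^κ ≤ #{k ∈ F_{i+1} : k ≤ x} ≤ cnt A x`;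
otherwise `cnt A x ≥ #F_i ≥ N_i^(κ (s+1)) ≥ x^κ`. -/
def S_REC : Prop := ∀ (M : Set ℕ) (s : ℕ) (κ : ℝ), 0 < κ → (∃ N₀ : ℕ, ∀ N : ℕ, N₀ ≤ N →
  ∀ F : Finset ℕ, F ⊆ Icc 1 N → (F.card : ℝ) ≤ (N : ℝ) ^ (1 / 10 : ℝ) → Adm F →
  ∃ (N' : ℕ) (F' : Finset ℕ), N < N' ∧ F' ⊆ Icc 1 N' ∧ (F'.card : ℝ) ≤ (N' : ℝ) ^ (1 / 10 : ℝ) ∧ Adm F' ∧ F ⊆ F' ∧
    (∀ k ∈ F', k ≤ N → k ∈ F) ∧ (∀ k ∈ F', N' - k ∈ M) ∧ (N' : ℝ) ^ (κ * (s + 1)) ≤ F'.card ∧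
    ∀ x : ℕ, (N : ℝ) ^ (s + 1) ≤ x → x ≤ N' → (x : ℝ) ^ κ ≤ ((F'.filter (fun k => k ≤ x)).card : ℝ)) →
  ∃ A : Set ℕ, {n | Good M A n}.Infinite ∧ ∀ᶠ x : ℕ in atTop, (x : ℝ) ^ κ ≤ cnt A x

end Pool.Agent.V5helper49.PTR
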